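import Pool.Agent.Jammed.Main

namespace Pool.Agent.Results.MP_585e0c_gt.ExponentialJammed

open Pool.Agent.Jammed

/-- There are a constant `c > 1` and, for infinitely many `n`, a jammed kissing configuration
`C ⊂ ℝⁿ` with at least `c ^ n` points. -/
theorem result : ∃ c : ℝ, 1 < c ∧ {n : ℕ | ∃ C : Finset (EuclideanSpace ℝ (Fin n)),
    IsKissing C ∧ IsJammed C ∧ c ^ n ≤ (C.card : ℝ)}.Infinite :=
  main

end Pool.Agent.Results.MP_585e0c_gt.ExponentialJammed
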